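import Pool.Agent.Q99.WM.Pow
import Pool.Agent.Q99.WM.Hom
import Pool.Agent.Q99.WM.Rat

/-!
# Quotients of semi-rational groups are semi-rational
-/

set_option autoImplicit false
set_option linter.style.haveILetI false

open scoped BigOperators Classical

noncomputable section

namespace Pool.Agent.Results.MP_405423_al.Quotients

open Pool.Agent.Q99.CT Pool.Agent.Q99.WM Pool.Agent.Helper884

/-- The number of the solutions of `w(g_1, …, g_r) = g`. -/
def NN {G : Type} [Group G] {r : ℕ} (w : FreeGroup (Fin r)) (g : G) : ℕ :=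
  Nat.card {φ : Fin r → G // FreeGroup.lift φ w = g}

/-- The coefficient `⟨N_{w,G}, χ⟩ = |G|⁻¹ ∑_g N_{w,G}(g) χ(g)‾`. -/
def coeff {G : Type} [Group G] {r : ℕ} (w : FreeGroup (Fin r)) (χ : G → ℂ) : ℂ :=
  (Nat.card G : ℂ)⁻¹ * ∑ᶠ g : G, (NN w g : ℂ) * (starRingEnd ℂ) (χ g)

/-- The finite group `G` is semi-rational: for every `r ≥ 1` and every word `w` in `r` letters, all
the coefficients `⟨N_{w,G}, χ⟩`, `χ` irreducible, are integers. -/
def SemiRational (G : Type) [Group G] : Prop :=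
  ∀ r : ℕ, 1 ≤ r → ∀ w : FreeGroup (Fin r), ∀ χ : G → ℂ, IC.IsIrrChar χ → ∃ a : ℤ, coeff w χ = a

section basic

variable {G : Type} [Group G] [Fintype G]

/-- Complex conjugation of character values. -/
theorem star_char {χ : G → ℂ} (hχ : IC.IsIrrChar χ) (g : G) : (starRingEnd ℂ) (χ g) = χ g⁻¹ := by
  obtain ⟨V, _, _, _, ρ, -, rfl⟩ := hχ
  have hN : 0 < orderOf g := orderOf_pos g
  obtain ⟨ζ, hζ⟩ : ∃ ζ : ℂ, IsPrimitiveRoot ζ (orderOf g) :=
    ⟨_, Complex.isPrimitiveRoot_exp _ hN.ne'⟩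
  obtain ⟨m, hm⟩ := char_expand ρ g hN (pow_orderOf_eq_one g) hζ
  have h1 := hm 1
  rw [pow_one] at h1
  have h2 := hm (orderOf g - 1)
  have h3 : g ^ (orderOf g - 1) = g⁻¹ := by
    rw [eq_inv_iff_mul_eq_one, ← pow_succ, Nat.sub_add_cancel hN, pow_orderOf_eq_one]
  rw [h3] at h2
  rw [h1, h2, map_sum]
  refine Finset.sum_congr rfl fun i _ => ?_
  rw [map_mul, map_natCast, map_pow]
  congr 1
  have h4 : (starRingEnd ℂ) ζ * ζ = 1 := by
    have hnorm : ‖ζ‖ = 1 := hζ.norm'_eq_one hN.ne'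
    rw [mul_comm, Complex.mul_conj, Complex.normSq_eq_norm_sq, hnorm]
    simp
  have h5 : (starRingEnd ℂ) ζ = ζ ^ (orderOf g - 1) := by
    have h6 : ζ ^ (orderOf g - 1) * ζ = 1 := by
      rw [← pow_succ, Nat.sub_add_cancel hN, hζ.pow_eq_one]
    exact mul_right_cancel₀ (hζ.ne_zero hN.ne') (h4.trans h6.symm)
  rw [h5, mul_one, ← pow_mul, mul_comm]

theorem coeff_eq {r : ℕ} (w : FreeGroup (Fin r)) {χ : G → ℂ} (hχ : IC.IsIrrChar χ) :
    coeff w χ = IC.B (fun g => (NN w g : ℂ)) χ := by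
  unfold coeff IC.B
  rw [finsum_eq_sum_of_fintype]
  congr 1
  exact Finset.sum_congr rfl fun g _ => by rw [star_char hχ]

theorem NN_conj {r : ℕ} (w : FreeGroup (Fin r)) (g y : G) : NN w (y * g * y⁻¹) = NN w g := by
  unfold NN
  refine Nat.card_congr ⟨fun φ => ⟨fun i => y⁻¹ * φ.1 i * y, ?_⟩,
    fun φ => ⟨fun i => y * φ.1 i * y⁻¹, ?_⟩, ?_, ?_⟩
  · have h1 : FreeGroup.lift (fun i => y⁻¹ * φ.1 i * y) =
        (MulAut.conj y⁻¹).toMonoidHom.comp (FreeGroup.lift φ.1) := by
      apply FreeGroup.ext_hom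
      intro i
      simp
    rw [h1]
    change y⁻¹ * FreeGroup.lift φ.1 w * y⁻¹⁻¹ = g
    rw [φ.2]; group
  · have h1 : FreeGroup.lift (fun i => y * φ.1 i * y⁻¹) =
        (MulAut.conj y).toMonoidHom.comp (FreeGroup.lift φ.1) := by
      apply FreeGroup.ext_hom
      intro i
      simp
    rw [h1]
    change y * FreeGroup.lift φ.1 w * y⁻¹ = _
    rw [φ.2]
  · intro φ; apply Subtype.ext; funext i; change y * (y⁻¹ * φ.1 i * y) * y⁻¹ = φ.1 i; group
  · intro φ; apply Subtype.ext; funext i; change y⁻¹ * (y * φ.1 i * y⁻¹) * y = φ.1 i; group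

/-- In a semi-rational group `N_w` is invariant under coprime powers. -/
theorem NN_pow (hG : SemiRational G) {r : ℕ} (hr : 1 ≤ r) (w : FreeGroup (Fin r)) {j : ℕ}
    (hj : j.Coprime (Nat.card G)) (g : G) : NN w (g ^ j) = NN w g := by
  have hN : 0 < Nat.card G := Nat.card_pos
  obtain ⟨ζ, hζ⟩ : ∃ ζ : ℂ, IsPrimitiveRoot ζ (Nat.card G) :=
    ⟨_, Complex.isPrimitiveRoot_exp _ hN.ne'⟩
  obtain ⟨σ, hσ⟩ := exists_emb hN hζ hj
  have hcl : IC.IsClass (fun g : G => (NN w g : ℂ)) := fun g y => by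
    change (NN w (y * g * y⁻¹) : ℂ) = NN w g
    rw [NN_conj]
  have hexp := IC.expand _ hcl
  have hint : ∀ χ ∈ IC.Irr G, ∃ a : ℤ, IC.B (fun g => (NN w g : ℂ)) χ = a := fun χ hχ => by
    rw [← coeff_eq w (IC.mem_Irr.mp hχ)]
    exact hG r hr w χ (IC.mem_Irr.mp hχ)
  have hpow : ∀ x : G, x ^ Nat.card G = 1 := fun x => pow_card_eq_one'
  choose! a ha using hint
  have h1 : ∀ x : G, (NN w x : ℂ) = ∑ χ ∈ IC.Irr G, (a χ : ℂ) * χ x := by
    intro x
    have := congrFun hexp x
    rw [Finset.sum_apply] at this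
    refine Eq.trans (this : (NN w x : ℂ) = _) ?_
    exact Finset.sum_congr rfl fun χ hχ => by rw [Pi.smul_apply, smul_eq_mul, ha χ hχ]
  -- the element of the cyclotomic field
  let c : (χ : G → ℂ) → cyc ζ := fun χ =>
    if h : IC.IsIrrChar χ then ⟨χ g, char_mem_cyc hN hζ h g (hpow g)⟩ else 0
  have hc : ∀ χ ∈ IC.Irr G, ((c χ : cyc ζ) : ℂ) = χ g := by
    intro χ hχ
    simp only [c]
    rw [dif_pos (IC.mem_Irr.mp hχ)]
  have hσc : ∀ χ ∈ IC.Irr G, σ (c χ) = χ (g ^ j) := by
    intro χ hχ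
    simp only [c]
    rw [dif_pos (IC.mem_Irr.mp hχ)]
    exact emb_char hN hζ hσ (IC.mem_Irr.mp hχ) g (hpow g)
  have h2 : ((NN w g : ℕ) : cyc ζ) = ∑ χ ∈ IC.Irr G, (a χ : cyc ζ) * c χ := by
    apply Subtype.ext
    push_cast
    rw [h1 g]
    exact Finset.sum_congr rfl fun χ hχ => by rw [hc χ hχ]
  have h3 := congrArg σ h2
  rw [map_natCast, map_sum] at h3
  have h4 : (NN w (g ^ j) : ℂ) = NN w g := by
    rw [h3, h1 (g ^ j)]
    refine Finset.sum_congr rfl fun χ hχ => ?_
    rw [map_mul, map_intCast, hσc χ hχ]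
  exact_mod_cast h4

end basic

section quot

variable {G Q : Type} [Group G] [Fintype G] [Group Q] [Fintype Q] (p : G →* Q)
  (hp : Function.Surjective p)

include hp in
/-- The fibres of the reduction of tuples. -/
theorem card_fiber {r : ℕ} (ψ : Fin r → Q) :
    (Finset.univ.filter fun φ : Fin r → G => (fun i => p (φ i)) = ψ).card =
      (Finset.univ.filter fun φ : Fin r → G => (fun i => p (φ i)) = 1).card := by
  choose s hs using hp
  apply Finset.card_bij (fun φ _ i => (s (ψ i))⁻¹ * φ i)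
  · intro φ hφ
    rw [Finset.mem_filter] at hφ ⊢
    refine ⟨Finset.mem_univ _, ?_⟩
    funext i
    have := congrFun hφ.2 i
    rw [map_mul, map_inv, hs, this, inv_mul_cancel]; rfl
  · intro φ _ φ' _ h
    funext i
    exact mul_left_cancel (congrFun h i)
  · intro φ hφ
    rw [Finset.mem_filter] at hφ
    refine ⟨fun i => s (ψ i) * φ i, ?_, ?_⟩
    · rw [Finset.mem_filter]
      refine ⟨Finset.mem_univ _, ?_⟩
      funext i
      have : p (φ i) = 1 := congrFun hφ.2 i
      rw [map_mul, hs, this, mul_one]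
    · funext i
      exact inv_mul_cancel_left _ _

theorem NN_eq_card {H : Type} [Group H] [Fintype H] {r : ℕ} (w : FreeGroup (Fin r)) (g : H) :
    NN w g = (Finset.univ.filter fun φ : Fin r → H => FreeGroup.lift φ w = g).card := by
  unfold NN
  rw [Nat.card_eq_fintype_card, Fintype.card_subtype]

theorem lift_comp {r : ℕ} (w : FreeGroup (Fin r)) (φ : Fin r → G) :
    FreeGroup.lift (fun i => p (φ i)) w = p (FreeGroup.lift φ w) := by
  have : FreeGroup.lift (fun i => p (φ i)) = p.comp (FreeGroup.lift φ) := by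
    apply FreeGroup.ext_hom
    intro i
    simp
  rw [this]; rfl

include hp in
/-- Summing `N_{w,G}` over a fibre. -/
theorem sum_fiber {r : ℕ} (w : FreeGroup (Fin r)) (q : Q) :
    ∑ x ∈ Finset.univ.filter (fun x : G => p x = q), NN w x =
      NN w q * (Finset.univ.filter fun φ : Fin r → G => (fun i => p (φ i)) = 1).card := by
  have h1 : ∑ x ∈ Finset.univ.filter (fun x : G => p x = q), NN w x =
      (Finset.univ.filter fun φ : Fin r → G => p (FreeGroup.lift φ w) = q).card := by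
    rw [Finset.card_eq_sum_card_fiberwise (f := fun φ : Fin r → G => FreeGroup.lift φ w)
      (t := Finset.univ.filter (fun x : G => p x = q))]
    · refine Finset.sum_congr rfl fun x hx => ?_
      rw [NN_eq_card]
      congr 1
      ext φ
      simp only [Finset.mem_filter, Finset.mem_univ, true_and] at hx ⊢
      constructor
      · intro h; rw [h]; exact ⟨hx, rfl⟩
      · intro h; exact h.2
    · intro φ hφ
      have := (Finset.mem_filter.mp (Finset.mem_coe.mp hφ)).2
      exact Finset.mem_coe.mpr (Finset.mem_filter.mpr ⟨Finset.mem_univ _, this⟩)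
  rw [h1, NN_eq_card, Finset.card_eq_sum_card_fiberwise
    (f := fun (φ : Fin r → G) (i : Fin r) => p (φ i))
    (t := Finset.univ.filter (fun ψ : Fin r → Q => FreeGroup.lift ψ w = q))]
  · rw [← smul_eq_mul, ← Finset.sum_const]
    refine Finset.sum_congr rfl fun ψ hψ => ?_
    rw [← card_fiber p hp ψ]
    congr 1
    ext φ
    simp only [Finset.mem_filter, Finset.mem_univ, true_and] at hψ ⊢
    constructor
    · intro h; exact h.2
    · intro h
      refine ⟨?_, h⟩
      rw [← lift_comp, h]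
      exact hψ
  · intro φ hφ
    have := (Finset.mem_filter.mp (Finset.mem_coe.mp hφ)).2
    refine Finset.mem_coe.mpr (Finset.mem_filter.mpr ⟨Finset.mem_univ _, ?_⟩)
    rw [lift_comp]
    exact this

include hp in
/-- The function `N_{w,Q}` of a quotient of a semi-rational group is invariant under powers prime
to `|G|`. -/
theorem NN_pow_quot (hG : SemiRational G) {r : ℕ} (hr : 1 ≤ r) (w : FreeGroup (Fin r)) {j : ℕ}
    (hj : j.Coprime (Nat.card G)) (q : Q) : NN w (q ^ j) = NN w q := by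
  have hjQ : j.Coprime (Nat.card Q) :=
    hj.coprime_dvd_right (Subgroup.card_dvd_of_surjective p hp)
  have h1 := sum_fiber p hp w q
  have h2 := sum_fiber p hp w (q ^ j)
  have h3 : ∑ x ∈ Finset.univ.filter (fun x : G => p x = q), NN w x =
      ∑ x ∈ Finset.univ.filter (fun x : G => p x = q ^ j), NN w x := by
    apply Finset.sum_bij (fun x _ => x ^ j)
    · intro x hx
      rw [Finset.mem_filter] at hx ⊢
      exact ⟨Finset.mem_univ _, by rw [map_pow, hx.2]⟩
    · intro x _ y _ h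
      exact (powCoprime (Nat.coprime_comm.mp hj)).injective h
    · intro y hy
      rw [Finset.mem_filter] at hy
      obtain ⟨x, hx⟩ := (powCoprime (Nat.coprime_comm.mp hj)).surjective y
      have hx' : x ^ j = y := hx
      refine ⟨x, ?_, hx'⟩
      rw [Finset.mem_filter]
      refine ⟨Finset.mem_univ _, ?_⟩
      apply (powCoprime (Nat.coprime_comm.mp hjQ)).injective
      change p x ^ j = q ^ j
      rw [← map_pow, hx', hy.2]
    · intro x _
      exact (NN_pow hG hr w hj x).symm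
  rw [h1, h2] at h3
  have hpos : 0 < (Finset.univ.filter fun φ : Fin r → G => (fun i => p (φ i)) = 1).card :=
    Finset.card_pos.mpr ⟨1, by simp; rfl⟩
  exact (Nat.eq_of_mul_eq_mul_right hpos h3).symm

end quot

section int

variable {G : Type} [Group G] [Fintype G]

/-- The coefficient as a sum over tuples. -/
theorem coeff_sum {r : ℕ} (w : FreeGroup (Fin r)) {χ : G → ℂ} (hχ : IC.IsIrrChar χ) :
    coeff w χ = (Fintype.card G : ℂ)⁻¹ * ∑ φ : Fin r → G, χ (FreeGroup.lift φ w⁻¹) := by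
  rw [coeff_eq w hχ]
  unfold IC.B
  rw [Nat.card_eq_fintype_card]
  congr 1
  rw [← Finset.sum_fiberwise Finset.univ (fun φ : Fin r → G => FreeGroup.lift φ w)]
  refine Finset.sum_congr rfl fun g _ => ?_
  have h1 : ∀ φ ∈ Finset.univ.filter (fun φ : Fin r → G => FreeGroup.lift φ w = g),
      χ (FreeGroup.lift φ w⁻¹) = χ g⁻¹ := by
    intro φ hφ
    rw [Finset.mem_filter] at hφ
    rw [map_inv, hφ.2]
  rw [Finset.sum_congr rfl h1, Finset.sum_const, nsmul_eq_mul, ← NN_eq_card]

instance fHom (r : ℕ) : Fintype (FreeGroup (Fin r) →* G) :=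
  Fintype.ofEquiv (Fin r → G) FreeGroup.lift

theorem sum_hom {r : ℕ} (f : (FreeGroup (Fin r) →* G) → ℂ) :
    ∑ φ : Fin r → G, f (FreeGroup.lift φ) = ∑ ψ : FreeGroup (Fin r) →* G, f ψ :=
  Fintype.sum_equiv FreeGroup.lift _ _ fun _ => rfl

/-- For at least two letters every word lies in the kernel of a surjection on the integers. -/
theorem exists_surj {r : ℕ} (hr : 2 ≤ r) (w : FreeGroup (Fin r)) :
    ∃ (π : FreeGroup (Fin r) →* Multiplicative ℤ) (t : FreeGroup (Fin r)),
      π t = Multiplicative.ofAdd 1 ∧ ex π w = 0 := by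
  -- exponent sums
  let E : Fin r → (FreeGroup (Fin r) →* Multiplicative ℤ) := fun i =>
    FreeGroup.lift fun k => Multiplicative.ofAdd (if k = i then 1 else 0)
  let i0 : Fin r := ⟨0, by omega⟩
  let i1 : Fin r := ⟨1, by omega⟩
  have h01 : i0 ≠ i1 := by
    intro h
    have := congrArg Fin.val h
    simp [i0, i1] at this
  let e0 : ℤ := (E i0 w).toAdd
  let e1 : ℤ := (E i1 w).toAdd
  obtain ⟨a, b, s, s', hab, hw⟩ : ∃ a b s s' : ℤ, a * s + b * s' = 1 ∧ a * e0 + b * e1 = 0 := by
    by_cases h : e0 = 0 ∧ e1 = 0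
    · exact ⟨1, 0, 1, 0, by ring, by rw [h.1, h.2]; ring⟩
    · have hg : (Int.gcd e0 e1 : ℤ) ≠ 0 := by
        rw [Ne, Int.natCast_eq_zero, Int.gcd_eq_zero_iff]
        exact h
      obtain ⟨x, hx⟩ := Int.gcd_dvd_left (a := e0) (b := e1)
      obtain ⟨y, hy⟩ := Int.gcd_dvd_right (a := e0) (b := e1)
      have hbez := Int.gcd_eq_gcd_ab e0 e1
      generalize Int.gcdA e0 e1 = A at hbez
      generalize Int.gcdB e0 e1 = B at hbez
      set d : ℤ := (Int.gcd e0 e1 : ℤ)
      refine ⟨y, -x, B, -A, ?_, ?_⟩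
      · have : d * (y * B + -x * -A) = d * 1 := by
          linear_combination -A * hx - B * hy - hbez
        exact mul_left_cancel₀ hg this
      · rw [hx, hy]; ring
  let π : FreeGroup (Fin r) →* Multiplicative ℤ := FreeGroup.lift fun k =>
    Multiplicative.ofAdd (if k = i0 then a else if k = i1 then b else 0)
  have hπ : ∀ u, ex π u = a * (E i0 u).toAdd + b * (E i1 u).toAdd := by
    intro u
    let π' : FreeGroup (Fin r) →* Multiplicative ℤ :=
      { toFun := fun u => Multiplicative.ofAdd (a * (E i0 u).toAdd + b * (E i1 u).toAdd)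
        map_one' := by simp
        map_mul' := fun u v => by
          rw [map_mul (E i0), map_mul (E i1), toAdd_mul, toAdd_mul, ← ofAdd_add]
          congr 1
          ring }
    have : π = π' := by
      apply FreeGroup.ext_hom
      intro k
      have eπ : π (FreeGroup.of k) =
          Multiplicative.ofAdd (if k = i0 then a else if k = i1 then b else 0) :=
        FreeGroup.lift_apply_of
      have eE : ∀ i, E i (FreeGroup.of k) = Multiplicative.ofAdd (if k = i then 1 else 0) :=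
        fun i => FreeGroup.lift_apply_of
      change π (FreeGroup.of k) = Multiplicative.ofAdd
        (a * (E i0 (FreeGroup.of k)).toAdd + b * (E i1 (FreeGroup.of k)).toAdd)
      rw [eπ, eE, eE]
      congr 1
      rw [toAdd_ofAdd, toAdd_ofAdd]
      by_cases h0 : k = i0
      · subst h0
        rw [if_pos rfl, if_pos rfl, if_neg h01]; ring
      · rw [if_neg h0, if_neg h0]
        by_cases h1 : k = i1
        · rw [if_pos h1, if_pos h1]; ring
        · rw [if_neg h1, if_neg h1]; ring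
    unfold ex
    rw [this]; rfl
  refine ⟨π, FreeGroup.of i0 ^ s * FreeGroup.of i1 ^ s', ?_, ?_⟩
  · rw [map_mul, map_zpow, map_zpow]
    have eπ : ∀ k, π (FreeGroup.of k) =
        Multiplicative.ofAdd (if k = i0 then a else if k = i1 then b else 0) :=
      fun k => FreeGroup.lift_apply_of
    rw [eπ, eπ, if_pos rfl, if_neg h01.symm, if_pos rfl,
      ← ofAdd_zsmul, ← ofAdd_zsmul, ← ofAdd_add]
    congr 1
    rw [smul_eq_mul, smul_eq_mul]
    linarith
  · rw [hπ]
    exact hw

theorem words_one (w : FreeGroup (Fin 1)) : ∃ k : ℤ, w = FreeGroup.of 0 ^ k := by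
  induction w using FreeGroup.induction_on with
  | C1 => exact ⟨0, by simp⟩
  | of x => exact ⟨1, by rw [zpow_one, Subsingleton.elim x 0]⟩
  | inv_of x _ => exact ⟨-1, by rw [zpow_neg_one, Subsingleton.elim x 0]⟩
  | mul x y hx hy =>
    obtain ⟨k, rfl⟩ := hx
    obtain ⟨l, rfl⟩ := hy
    exact ⟨k + l, by rw [zpow_add]⟩

/-- The coefficients are algebraic integers. -/
theorem coeff_integral {r : ℕ} (hr : 1 ≤ r) (w : FreeGroup (Fin r)) {χ : G → ℂ}
    (hχ : IC.IsIrrChar χ) : IsIntegral ℤ (coeff w χ) := by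
  rw [coeff_sum w hχ]
  rcases Nat.lt_or_ge r 2 with h | h
  · obtain rfl : r = 1 := by omega
    obtain ⟨k, hk⟩ := words_one w⁻¹
    rw [hk]
    have h1 : ∑ φ : Fin 1 → G, χ (FreeGroup.lift φ (FreeGroup.of 0 ^ k)) = ∑ g : G, χ (g ^ k) := by
      refine Fintype.sum_equiv (Equiv.funUnique (Fin 1) G) _ _ fun φ => ?_
      rw [map_zpow, FreeGroup.lift_apply_of]; rfl
    rw [h1]
    -- powers
    obtain ⟨V, _, _, _, ρ, hρ, rfl⟩ := hχ
    have h0 : IsIntegral ℤ ((Fintype.card G : ℂ)⁻¹ * ∑ g : G, ρ.character (g ^ 0)) := by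
      simp only [pow_zero, ρ.char_one, Finset.sum_const, Finset.card_univ, nsmul_eq_mul]
      rw [← mul_assoc, inv_mul_cancel₀ (by exact_mod_cast Fintype.card_ne_zero), one_mul]
      have := isIntegral_algebraMap (R := ℤ) (A := ℂ) (x := (Module.finrank ℂ V : ℤ))
      simpa using this
    have hnat : ∀ n : ℕ, IsIntegral ℤ ((Fintype.card G : ℂ)⁻¹ * ∑ g : G, ρ.character (g ^ n)) := by
      intro n
      rcases n with _ | n
      · exact h0
      · exact fs_integral ρ n
    rcases Int.eq_nat_or_neg k with ⟨n, rfl | rfl⟩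
    · simpa using hnat n
    · have h2 : ∑ g : G, ρ.character (g ^ (-(n : ℤ))) = ∑ g : G, ρ.character (g ^ n) := by
        refine Fintype.sum_equiv (Equiv.inv G) _ _ fun g => ?_
        rw [zpow_neg, zpow_natCast, Equiv.inv_apply, inv_pow]
      rw [h2]
      exact hnat n
  · obtain ⟨π, t, ht, hw⟩ := exists_surj h w⁻¹
    have := hom_integral (G := G) ht w⁻¹ hw χ (IC.IsIrrChar.isClass hχ) (char_integral hχ)
    rw [sum_hom fun ψ => χ (ψ w⁻¹)]
    exact this

end int

/-- A homomorphic image of a finite semi-rational group is semi-rational. -/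
theorem main {G Q : Type} [Group G] [Fintype G] [Group Q] [Fintype Q] (p : G →* Q)
    (hp : Function.Surjective p) (hG : SemiRational G) : SemiRational Q := by
  intro r hr w χ hχ
  apply int_of_rat (coeff_integral hr w hχ)
  have hN : 0 < Nat.card G := Nat.card_pos
  obtain ⟨ζ, hζ⟩ : ∃ ζ : ℂ, IsPrimitiveRoot ζ (Nat.card G) :=
    ⟨_, Complex.isPrimitiveRoot_exp _ hN.ne'⟩
  have hdvd : Nat.card Q ∣ Nat.card G := Subgroup.card_dvd_of_surjective p hp
  have hpow : ∀ x : Q, x ^ Nat.card G = 1 := by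
    intro x
    obtain ⟨d, hd⟩ := hdvd
    rw [hd, pow_mul, pow_card_eq_one', one_pow]
  rw [coeff_eq w hχ]
  let z : cyc ζ := (Nat.card Q : cyc ζ)⁻¹ * ∑ q : Q, (NN w q : cyc ζ) *
    ⟨χ q⁻¹, char_mem_cyc hN hζ hχ q⁻¹ (hpow _)⟩
  have hz : (z : ℂ) = IC.B (fun q => (NN w q : ℂ)) χ := by
    unfold IC.B
    simp only [z]
    push_cast
    rfl
  rw [← hz]
  apply rational_of_fixed hN hζ z
  intro j hj σ hσ
  have h1 : σ z = (Nat.card Q : ℂ)⁻¹ * ∑ q : Q, (NN w q : ℂ) * χ (q⁻¹ ^ j) := by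
    simp only [z]
    rw [map_mul, map_inv₀, map_natCast, map_sum]
    congr 1
    refine Finset.sum_congr rfl fun q _ => ?_
    rw [map_mul, map_natCast]
    congr 1
    exact emb_char hN hζ hσ hχ q⁻¹ (hpow _)
  rw [h1, hz]
  unfold IC.B
  congr 1
  have hjQ : j.Coprime (Nat.card Q) := hj.coprime_dvd_right hdvd
  refine Fintype.sum_equiv (powCoprime (Nat.coprime_comm.mp hjQ)) _ _ fun q => ?_
  change (NN w q : ℂ) * χ (q⁻¹ ^ j) = (NN w (q ^ j) : ℂ) * χ (q ^ j)⁻¹
  rw [NN_pow_quot p hp hG hr w hj q, inv_pow]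

/-- Quotients of finite semi-rational groups are semi-rational. -/
theorem result (G : Type) [Group G] [Finite G] (hG : SemiRational G) (N : Subgroup G) [N.Normal] :
    SemiRational (G ⧸ N) := by
  haveI : Fintype G := Fintype.ofFinite G
  haveI : Fintype (G ⧸ N) := Fintype.ofFinite _
  exact main (QuotientGroup.mk' N) (QuotientGroup.mk'_surjective N) hG

end Pool.Agent.Results.MP_405423_al.Quotients
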